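import Mathlib
import Pool.Agent.H234RV.Base

set_option autoImplicit false

/-!
Asymmetric rendezvous on a finite connected graph `X` with `n` vertices and a group `Γ` of
isometries that is transitive on vertices and on arcs. The least mean first meeting time is
`(n - 1) / 2` if and only if `X` has a Hamiltonian path.
-/

namespace Pool.Agent.Results.MP_01accb_co.ArcTransitive

open Finset Pool.Agent.H234RV

theorem result {V Γ : Type*} [Fintype V] [Group Γ] [Fintype Γ] [MulAction Γ V]
    (X : SimpleGraph V) (hconn : X.Connected)
    (_hadj : ∀ (g : Γ) (u v : V), X.Adj u v → X.Adj (g • u) (g • v))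
    (htrans : ∀ u v : V, ∃ g : Γ, g • u = v)
    (harc : ∀ u v u' v' : V, X.Adj u v → X.Adj u' v' → ∃ g : Γ, g • u = u' ∧ g • v = v') :
    IsLeast (values Γ X) (((Fintype.card V : ℝ) - 1) / 2) ↔ HasHamiltonianPath X := by
  have : Nonempty V := hconn.nonempty
  have : MulAction.IsPretransitive Γ V := ⟨htrans⟩
  constructor
  · rintro ⟨⟨r, s, hr, hs, hmeet, heq⟩, -⟩
    have hu : ∀ (g : Γ) (i j : ℕ), i < Fintype.card V → j < Fintype.card V → g • r i = s i →
        g • r j = s j → i = j :=
      fun g i j hi hj h1 h2 => unique_meeting hmeet heq.symm g hi hj h1 h2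
    -- exactly one walker moves
    have hnotboth : ∀ i, i + 1 < Fintype.card V → X.Adj (r i) (r (i + 1)) →
        X.Adj (s i) (s (i + 1)) → False := by
      intro i hi h1 h2
      obtain ⟨g, hg1, hg2⟩ := harc _ _ _ _ h1 h2
      have := hu g i (i + 1) (by omega) hi hg1 hg2
      omega
    have hnotnone : ∀ i, i + 1 < Fintype.card V → r (i + 1) = r i → s (i + 1) = s i → False := by
      intro i hi h1 h2
      obtain ⟨g, hg⟩ := htrans (r i) (s i)
      have := hu g i (i + 1) (by omega) hi hg (by rw [h1, h2, hg])
      omega
    have hrstep : ∀ i, i + 2 < Fintype.card V → X.Adj (r i) (r (i + 1)) →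
        X.Adj (r (i + 1)) (r (i + 2)) := by
      intro i hi h1
      rcases hr (i + 1) with h2 | h2
      · exfalso
        have h3 : s (i + 1) = s i := by
          rcases hs i with h | h
          · exact h
          · exact (hnotboth i (by omega) h1 h).elim
        have h4 : X.Adj (s (i + 1)) (s (i + 2)) := by
          rcases hs (i + 1) with h | h
          · exact (hnotnone (i + 1) (by omega) h2 h).elim
          · exact h
        rw [h3] at h4
        obtain ⟨g, hg1, hg2⟩ := harc _ _ _ _ h1 h4
        have := hu g i (i + 2) (by omega) hi hg1 (by
          have h5 : r (i + 2) = r (i + 1) := h2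
          rw [h5, hg2])
        omega
      · exact h2
    have hsstep : ∀ i, i + 2 < Fintype.card V → X.Adj (s i) (s (i + 1)) →
        X.Adj (s (i + 1)) (s (i + 2)) := by
      intro i hi h1
      rcases hs (i + 1) with h2 | h2
      · exfalso
        have h3 : r (i + 1) = r i := by
          rcases hr i with h | h
          · exact h
          · exact (hnotboth i (by omega) h h1).elim
        have h4 : X.Adj (r (i + 1)) (r (i + 2)) := by
          rcases hr (i + 1) with h | h
          · exact (hnotnone (i + 1) (by omega) h h2).elim
          · exact h
        rw [h3] at h4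
        obtain ⟨g, hg1, hg2⟩ := harc _ _ _ _ h4 h1
        have := hu g i (i + 2) (by omega) hi hg1 (by
          have h5 : s (i + 2) = s (i + 1) := h2
          rw [h5, hg2])
        omega
      · exact h2
    by_cases hn : Fintype.card V = 1
    · refine ⟨r, fun i hi => by omega, fun v => ?_⟩
      have hsub : Subsingleton V := Fintype.card_le_one_iff_subsingleton.mp hn.le
      exact ⟨0, ⟨by omega, Subsingleton.elim _ _⟩, fun j hj => by omega⟩
    · have hpos : 0 < Fintype.card V := Fintype.card_pos
      rcases hr 0 with h0 | h0
      · -- `s` moves at every step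
        have hs0 : X.Adj (s 0) (s 1) := by
          rcases hs 0 with h | h
          · exact (hnotnone 0 (by omega) h0 h).elim
          · exact h
        have hmv : ∀ i, i + 1 < Fintype.card V → X.Adj (s i) (s (i + 1)) := by
          intro i
          induction i with
          | zero => intro _; exact hs0
          | succ k ih => intro hk; exact hsstep k hk (ih (by omega))
        refine hamiltonian_of_moves (Γ := Γ) (r := s) (s := r) ?_ hmv ?_
        · intro g i j hi hj h1 h2
          exact hu g⁻¹ i j hi hj (by rw [← h1, inv_smul_smul]) (by rw [← h2, inv_smul_smul])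
        · intro i hi
          rcases hr i with h | h
          · exact h
          · exact (hnotboth i hi h (hmv i hi)).elim
      · have hmv : ∀ i, i + 1 < Fintype.card V → X.Adj (r i) (r (i + 1)) := by
          intro i
          induction i with
          | zero => intro _; exact h0
          | succ k ih => intro hk; exact hrstep k hk (ih (by omega))
        refine hamiltonian_of_moves (Γ := Γ) (r := r) (s := s) hu hmv ?_
        intro i hi
        rcases hs i with h | h
        · exact h
        · exact (hnotboth i hi (hmv i hi) h).elim
  · rintro ⟨p, hp, hv⟩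
    rw [criterion]
    have hpos : 0 < Fintype.card V := Fintype.card_pos
    refine ⟨fun i => p (min i (Fintype.card V - 1)), fun _ => p 0, ?_, ?_, ?_⟩
    · intro i
      by_cases hi : i + 1 < Fintype.card V
      · right
        have h1 : min i (Fintype.card V - 1) = i := by omega
        have h2 : min (i + 1) (Fintype.card V - 1) = i + 1 := by omega
        simp only [h1, h2]
        exact hp i hi
      · left
        have h1 : min i (Fintype.card V - 1) = Fintype.card V - 1 := by omega
        have h2 : min (i + 1) (Fintype.card V - 1) = Fintype.card V - 1 := by omega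
        simp only [h1, h2]
    · intro i; left; rfl
    · rintro i j hij hj ⟨g, h1, h2⟩
      have e1 : min i (Fintype.card V - 1) = i := by omega
      have e2 : min j (Fintype.card V - 1) = j := by omega
      simp only [e1] at h1
      simp only [e2] at h2
      obtain ⟨k, -, huniq⟩ := hv (g⁻¹ • p 0)
      have hi' := huniq i ⟨by omega, by rw [← h1, inv_smul_smul]⟩
      have hj' := huniq j ⟨hj, by rw [← h2, inv_smul_smul]⟩
      omega

end Pool.Agent.Results.MP_01accb_co.ArcTransitive
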