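import Mathlib
import Pool.Agent.H234RV.Base
import Pool.Agent.H234RV.Square

set_option autoImplicit false

/-!
Let `G` be a finite group and `X` a graph on `G` invariant under left multiplication that has a
connected spanning subgraph `Y` invariant under left and right multiplication (a Cayley graph whose
connection set contains a generating set closed under conjugation). For the group `G` acting on `X`
by left multiplication, the asymmetric rendezvous value is `(n - 1) / 2`.
-/

namespace Pool.Agent.Results.MP_01accb_co.BiinvariantCayley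

open Pool.Agent.H234RV

theorem square_hamiltonian {G : Type*} [Group G] [Fintype G] (X : SimpleGraph G)
    (hconn : X.Connected)
    (hl : ∀ g u v : G, X.Adj u v → X.Adj (g * u) (g * v))
    (hr : ∀ g u v : G, X.Adj u v → X.Adj (u * g) (v * g)) : HasSquareHamiltonianPath X := by
  classical
  by_cases hs : ∃ s : G, X.Adj 1 s
  · obtain ⟨s, hs⟩ := hs
    obtain ⟨L, hnd, hall, hch⟩ := square_list hconn hl hr hs
    have hlen : L.length = Fintype.card G := by
      rw [← List.toFinset_card_of_nodup hnd, ← Finset.card_univ]
      congr 1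
      ext z
      simp [hall]
    have hget : ∀ i (hi : i < L.length), L.getD i 1 = L[i] := by
      intro i hi
      rw [List.getD_eq_getElem _ _ hi]
    refine ⟨fun i => L.getD i 1, fun i hi => ?_, fun v => ?_⟩
    · have hi' : i + 1 < L.length := by rw [hlen]; exact hi
      have := List.isChain_iff_getElem.mp hch i hi'
      simp only [hget i (by omega), hget (i + 1) hi']
      exact this
    · obtain ⟨i, hi, hv⟩ := List.getElem_of_mem (hall v)
      refine ⟨i, ⟨by omega, by simp only [hget i hi, hv]⟩, ?_⟩
      rintro j ⟨hj, hjv⟩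
      have hj' : j < L.length := by omega
      simp only [hget j hj'] at hjv
      exact (hnd.getElem_inj_iff).mp (hjv.trans hv.symm)
  · have hcard : Fintype.card G = 1 := by
      rw [Fintype.card_eq_one_iff]
      refine ⟨1, fun y => ?_⟩
      by_contra hy
      obtain ⟨w⟩ := hconn.preconnected 1 y
      cases w with
      | nil => exact hy rfl
      | cons h _ => exact hs ⟨_, h⟩
    refine ⟨fun _ => 1, fun i hi => by omega, fun v => ?_⟩
    have hsub : Subsingleton G := Fintype.card_le_one_iff_subsingleton.mp hcard.le
    exact ⟨0, ⟨by omega, Subsingleton.elim _ _⟩, fun j hj => by omega⟩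

theorem result {G : Type*} [Group G] [Fintype G] (X Y : SimpleGraph G)
    (_hX : ∀ g u v : G, X.Adj u v → X.Adj (g * u) (g * v))
    (hYX : Y ≤ X) (hconn : Y.Connected)
    (hl : ∀ g u v : G, Y.Adj u v → Y.Adj (g * u) (g * v))
    (hr : ∀ g u v : G, Y.Adj u v → Y.Adj (u * g) (v * g)) :
    IsLeast (values G X) (((Fintype.card G : ℝ) - 1) / 2) := by
  have : Nonempty G := ⟨1⟩
  have : MulAction.IsPretransitive G G := ⟨fun a b => ⟨b * a⁻¹, by simp⟩⟩
  obtain ⟨⟨r, s, h1, h2, h3, h4⟩, -⟩ :=
    (biinvariant Y hl hr).mpr (square_hamiltonian Y hconn hl hr)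
  refine ⟨⟨r, s, fun i => (h1 i).imp id (fun h => hYX h), fun i => (h2 i).imp id (fun h => hYX h),
    h3, h4⟩, ?_⟩
  rintro t ⟨r', s', -, -, hmeet, rfl⟩
  exact lower_bound hmeet

end Pool.Agent.Results.MP_01accb_co.BiinvariantCayley
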